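import Pool.Agent.X111.AT.MainK

/-!
# Sup norms of the exponential sums with coefficients `μ(n) n^{it}`, for almost all `t`

Let `|a_n| ≤ 1`, for instance `a_n = μ(n)`, and `G_t(x) = ∑_{n ≤ R} a_n n^{it} e(n x)`.

(1) For all `t ∈ [0, T]` outside a set of measure at most `δ T`:
`∫_0^1 |G_t(x)|⁴ dx ≤ (8 / δ) (1 + log R)² (R² + R³ / T)` and
`|G_t(x)|⁴ ≤ (16 / δ) (1 + log R)² (R³ + R⁴ / T)` for all real `x`.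

(2) Let `k ≥ 1`, `ε > 0`. There is `C` (depending on `k` and `ε` only) such that if `T ≥ R^k`, then for all
`t ∈ [0, T]` outside a set of measure at most `δ T`: `∫_0^1 |G_t(x)|^{2k} dx ≤ (C / δ) R^{k + ε}` and
`|G_t(x)|^{2k} ≤ (C / δ) R^{k + 1 + ε}` for all real `x`.
-/

set_option autoImplicit false

namespace Pool.Agent.Results.MP_b6b996_nt.AlmostAllTwists

open Finset MeasureTheory

/-- `G_t(x) = ∑_{n = 1}^R a_n n^{it} e(n x)`, where `e(x) = exp(2 π i x)`, `n^{it} = exp(i t log n)` -/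
noncomputable def G (a : ℕ → ℂ) (R : ℕ) (t x : ℝ) : ℂ :=
  ∑ n ∈ Icc 1 R, a n * Complex.exp (Complex.I * (t * Real.log n : ℝ)) *
    Complex.exp (2 * Real.pi * Complex.I * (n * x : ℝ))

theorem G_eq (a : ℕ → ℂ) (R : ℕ) (t x : ℝ) : G a R t x = Pool.Agent.X111.AT.D R a x t := by
  unfold G Pool.Agent.X111.AT.D
  refine sum_congr rfl fun n _ => ?_
  rw [mul_assoc, ← Complex.exp_add]
  congr 2
  push_cast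
  ring

/-- **Theorem.** -/
theorem result :
    (∀ R : ℕ, 1 ≤ R → ∀ T : ℝ, 0 < T → ∀ a : ℕ → ℂ, (∀ n, ‖a n‖ ≤ 1) → ∀ δ : ℝ, 0 < δ →
      ∃ E : Set ℝ, MeasurableSet E ∧ volume E ≤ ENNReal.ofReal (δ * T) ∧
      ∀ t ∈ Set.Icc (0 : ℝ) T, t ∉ E →
        ∫ x in (0 : ℝ)..1, ‖G a R t x‖ ^ 4 ≤
          8 / δ * (1 + Real.log R) ^ 2 * ((R : ℝ) ^ 2 + (R : ℝ) ^ 3 / T) ∧
        ∀ x : ℝ, ‖G a R t x‖ ^ 4 ≤
          16 / δ * (1 + Real.log R) ^ 2 * ((R : ℝ) ^ 3 + (R : ℝ) ^ 4 / T)) ∧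
    ∀ k : ℕ, 1 ≤ k → ∀ ε : ℝ, 0 < ε → ∃ C : ℝ, 0 < C ∧
      ∀ R : ℕ, 1 ≤ R → ∀ T : ℝ, (R : ℝ) ^ k ≤ T → ∀ a : ℕ → ℂ, (∀ n, ‖a n‖ ≤ 1) → ∀ δ : ℝ, 0 < δ →
      ∃ E : Set ℝ, MeasurableSet E ∧ volume E ≤ ENNReal.ofReal (δ * T) ∧
      ∀ t ∈ Set.Icc (0 : ℝ) T, t ∉ E →
        ∫ x in (0 : ℝ)..1, ‖G a R t x‖ ^ (2 * k) ≤ C / δ * (R : ℝ) ^ ((k : ℝ) + ε) ∧
        ∀ x : ℝ, ‖G a R t x‖ ^ (2 * k) ≤ C / δ * (R : ℝ) ^ ((k : ℝ) + 1 + ε) := by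
  simp_rw [G_eq]
  exact ⟨fun R hR T hT a ha δ hδ => Pool.Agent.X111.AT.mainSup R hR T hT a ha δ hδ,
    fun k hk ε hε => Pool.Agent.X111.AT.mainK k hk ε hε⟩

end Pool.Agent.Results.MP_b6b996_nt.AlmostAllTwists
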