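import Mathlib
import Pool.Agent.X1.MobD

/-!
# The Möbius exponential sum at the elements of a real number field

Let `α_1, …, α_d` be real algebraic numbers with `1, α_1, …, α_d` linearly independent over the
rationals (for example, together with `1`, a basis of a real number field).  The sup norm of
`F_R(x) = ∑_{n ≤ R} μ(n) e(nx)` is, up to the factor `8` and the passage to the partial sums,
attained at the numbers `t + a_1 α_1 + … + a_d α_d` with `0 ≤ a_i < R^(1/d + δ)`, so that the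
conjecture is a statement on these numbers; and the square root bound holds for almost all of them.
-/

set_option autoImplicit false

namespace Pool.Agent.Results.MP_b6b996_nt.BoundsAtFieldElements

open Finset Filter
open Pool.Agent.X1.SchP (nd E Fs almost dense transfer box)

/-- The Moebius exponential sum `F_R(x) = ∑_{n=1}^R μ(n) e^{2πinx}`. -/
noncomputable def F (R : ℕ) (x : ℝ) : ℂ :=
  ∑ n ∈ Finset.Icc 1 R, ((ArithmeticFunction.moebius n : ℤ) : ℂ) *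
    Complex.exp (2 * Real.pi * Complex.I * n * x)

/-- the coefficients -/
noncomputable def mu (n : ℕ) : ℂ := ((ArithmeticFunction.moebius n : ℤ) : ℂ)

lemma norm_mu (n : ℕ) : ‖mu n‖ ≤ 1 := by
  unfold mu
  rw [Complex.norm_intCast]
  exact_mod_cast ArithmeticFunction.abs_moebius_le_one

lemma F_eq (R : ℕ) (x : ℝ) : F R x = Fs mu R x := by
  unfold F Fs
  rw [Finset.range_eq_Ico, Finset.sum_eq_sum_Ico_succ_bot (Nat.succ_pos R)]
  have h0 : mu 0 * E ((0 : ℕ) * x) = 0 := by simp [mu]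
  rw [h0, zero_add]
  have h1 : Ico (0 + 1) (R + 1) = Icc 1 R := by
    ext n; rw [mem_Ico, mem_Icc]; omega
  rw [h1]
  apply Finset.sum_congr rfl
  intro n _
  unfold mu E
  congr 2
  push_cast
  ring

lemma ind_int {d : ℕ} (α : Fin d → ℝ)
    (hind : LinearIndependent ℚ (Fin.cons 1 α : Fin (d + 1) → ℝ)) (y0 : ℤ) (y : Fin d → ℤ)
    (h : (y0 : ℝ) + ∑ i, (y i : ℝ) * α i = 0) : y0 = 0 ∧ y = 0 := by
  have h1 := Fintype.linearIndependent_iff.1 hind
    (Fin.cons (y0 : ℚ) (fun i => (y i : ℚ))) (by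
      rw [Fin.sum_univ_succ]
      simp only [Fin.cons_zero, Fin.cons_succ, Rat.smul_def]
      push_cast
      rw [mul_one]
      exact h)
  refine ⟨?_, ?_⟩
  · have := h1 0
    rw [Fin.cons_zero] at this
    exact_mod_cast this
  · funext i
    have := h1 i.succ
    rw [Fin.cons_succ] at this
    exact_mod_cast this

/-- `‖F_R‖_∞ = O(R^(σ + ε))` for every `ε > 0` -/
def SupBound (σ : ℝ) : Prop := ∀ ε : ℝ, 0 < ε → ∃ C : ℝ, ∀ R : ℕ, 1 ≤ R → ∀ x : ℝ,
  ‖F R x‖ ≤ C * (R : ℝ) ^ (σ + ε)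

/-- the same bound for the partial sums `F_r`, `r ≤ R`, at the numbers `t + a_1 α_1 + … + a_d α_d`
with natural numbers `a_i ≤ R^θ` only -/
def FieldBound {d : ℕ} (α : Fin d → ℝ) (t θ σ : ℝ) : Prop := ∀ ε : ℝ, 0 < ε → ∃ C : ℝ,
  ∀ R : ℕ, 1 ≤ R → ∀ r : ℕ, r ≤ R → ∀ a : Fin d → ℕ, (∀ i, (a i : ℝ) ≤ (R : ℝ) ^ θ) →
    ‖F r (t + ∑ i, (a i : ℝ) * α i)‖ ≤ C * (R : ℝ) ^ (σ + ε)

lemma F_trivial (R : ℕ) (x : ℝ) : ‖F R x‖ ≤ R := by
  unfold F
  refine (norm_sum_le _ _).trans ?_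
  have h : ∀ n ∈ Finset.Icc 1 R, ‖((ArithmeticFunction.moebius n : ℤ) : ℂ) *
      Complex.exp (2 * Real.pi * Complex.I * n * x)‖ ≤ 1 := by
    intro n _
    rw [norm_mul]
    have h1 : ‖((ArithmeticFunction.moebius n : ℤ) : ℂ)‖ ≤ 1 := norm_mu n
    have h2 : (2 * Real.pi * Complex.I * n * ((x : ℝ) : ℂ) : ℂ) =
        ((2 * Real.pi * n * x : ℝ) : ℂ) * Complex.I := by
      push_cast
      ring
    rw [h2, Complex.norm_exp_ofReal_mul_I, mul_one]
    exact h1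
  refine (Finset.sum_le_sum h).trans ?_
  simp

open Classical in
/-- **The Möbius exponential sum at field elements.** Let `d ≥ 1` and let `α_1, …, α_d` be real
algebraic numbers with `1, α_1, …, α_d` linearly independent over `ℚ`.

(1) For every `δ > 0` there is `R₀` such that for all `R ≥ R₀`, `B ≥ R^(1/d + δ)` and all real `t`,
`x` there are natural numbers `a_i < B` and `r ≤ R` with
`|F_R(x)| ≤ 8 |F_r(t + a_1 α_1 + … + a_d α_d)|`.

(2) Hence, for all `σ ≥ 0`, `δ > 0` and real `t`, the bound `‖F_R‖_∞ = O(R^(σ + ε))` (for every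
`ε > 0`) is equivalent to the same bound at these numbers only.

(3) For all `δ, A > 0` there is `B₀` such that for all `B ≥ B₀` and all real `t`: for all but at most
`B^(d - δ)` of the `a` in `[0, B)^d` the sum at `x = t + a_1 α_1 + … + a_d α_d` satisfies
`|F_r(x)| ≤ B^δ (√r + r / B^(d/2))` for all `1 ≤ r ≤ B^A`. -/
theorem result {d : ℕ} (hd : 1 ≤ d) (α : Fin d → ℝ) (halg : ∀ i, IsAlgebraic ℚ (α i))
    (hind : LinearIndependent ℚ (Fin.cons 1 α : Fin (d + 1) → ℝ)) :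
    (∀ δ : ℝ, 0 < δ → ∃ R₀ : ℕ, ∀ R : ℕ, R₀ ≤ R → ∀ B : ℕ, (R : ℝ) ^ (1 / (d : ℝ) + δ) ≤ B →
      ∀ t x : ℝ, ∃ a : Fin d → ℕ, (∀ i, a i < B) ∧ ∃ r ≤ R,
        ‖F R x‖ ≤ 8 * ‖F r (t + ∑ i, (a i : ℝ) * α i)‖) ∧
    (∀ σ δ t : ℝ, 0 ≤ σ → 0 < δ → (SupBound σ ↔ FieldBound α t (1 / (d : ℝ) + δ) σ)) ∧
    (∀ δ A : ℝ, 0 < δ → 0 < A → ∃ B₀ : ℕ, ∀ B : ℕ, B₀ ≤ B → ∀ t : ℝ,
      (((Fintype.piFinset fun _ : Fin d => range B).filter fun a =>
        ∃ r : ℕ, 1 ≤ r ∧ (r : ℝ) ≤ (B : ℝ) ^ A ∧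
          (B : ℝ) ^ δ * (Real.sqrt r + r / Real.sqrt ((B : ℝ) ^ d)) <
            ‖F r (t + ∑ i, (a i : ℝ) * α i)‖).card : ℝ) ≤ (B : ℝ) ^ ((d : ℝ) - δ)) := by
  have hii := ind_int α hind
  have part1 : ∀ δ : ℝ, 0 < δ → ∃ R₀ : ℕ, ∀ R : ℕ, R₀ ≤ R → ∀ B : ℕ,
      (R : ℝ) ^ (1 / (d : ℝ) + δ) ≤ B → ∀ t x : ℝ, ∃ a : Fin d → ℕ, (∀ i, a i < B) ∧
        ∃ r ≤ R, ‖F R x‖ ≤ 8 * ‖F r (t + ∑ i, (a i : ℝ) * α i)‖ := by
    intro δ hδ
    obtain ⟨R₀, hR₀1, hR₀⟩ := dense hd α halg hii δ hδ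
    refine ⟨R₀, fun R hR B hB t x => ?_⟩
    obtain ⟨a, ha, hnd⟩ := hR₀ R hR B hB (t - x)
    refine ⟨a, fun i => ?_, ?_⟩
    · have := Fintype.mem_piFinset.1 ha i
      exact mem_range.1 this
    · have h1 : nd (x - (t + ∑ i, (a i : ℝ) * α i)) ≤ 1 / R := by
        have h2 : x - (t + ∑ i, (a i : ℝ) * α i) = -(t - x + ∑ i, (a i : ℝ) * α i) := by ring
        rw [h2]
        have h3 : nd (-(t - x + ∑ i, (a i : ℝ) * α i)) ≤ nd (t - x + ∑ i, (a i : ℝ) * α i) := by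
          have h4 := Pool.Agent.X1.SchP.nd_le (-(t - x + ∑ i, (a i : ℝ) * α i))
            (-(round (t - x + ∑ i, (a i : ℝ) * α i)))
          refine h4.trans (le_of_eq ?_)
          unfold nd
          push_cast
          rw [← abs_neg]
          congr 1
          ring
        exact h3.trans hnd
      obtain ⟨r, hr, hle⟩ := transfer mu R (hR₀1.trans hR) x _ h1
      refine ⟨r, hr, ?_⟩
      rw [F_eq, F_eq]
      exact hle
  refine ⟨part1, ?_, ?_⟩
  · intro σ δ t hσ hδ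
    constructor
    · intro h ε hε
      obtain ⟨C, hC⟩ := h ε hε
      refine ⟨max C 0, fun R hR r hr a _ => ?_⟩
      rcases Nat.eq_zero_or_pos r with h0 | h0
      · subst h0
        have h1 : F 0 (t + ∑ i, (a i : ℝ) * α i) = 0 := by simp [F]
        rw [h1, norm_zero]
        positivity
      · refine (hC r h0 _).trans ?_
        have h1 : (r : ℝ) ^ (σ + ε) ≤ (R : ℝ) ^ (σ + ε) :=
          Real.rpow_le_rpow (Nat.cast_nonneg r) (by exact_mod_cast hr) (by positivity)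
        exact mul_le_mul (le_max_left _ _) h1 (by positivity) (le_max_right _ _)
    · intro h ε hε
      obtain ⟨C, hC⟩ := h ε hε
      obtain ⟨R₀, hR₀⟩ := part1 (δ / 2) (by positivity)
      have hd0 : (0 : ℝ) < d := by exact_mod_cast hd
      have hev : ∀ᶠ R : ℕ in atTop, (R : ℝ) ^ (1 / (d : ℝ) + δ / 2) + 1 ≤
          (R : ℝ) ^ (1 / (d : ℝ) + δ) := by
        have h1 : Tendsto (fun R : ℕ => (R : ℝ) ^ (δ / 2)) atTop atTop :=
          (tendsto_rpow_atTop (by positivity)).comp tendsto_natCast_atTop_atTop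
        filter_upwards [h1.eventually (eventually_ge_atTop 2), eventually_ge_atTop 1] with R hR hR1
        have hRR : (1 : ℝ) ≤ R := by exact_mod_cast hR1
        have hR0 : (0 : ℝ) < R := by linarith
        have h2 : (R : ℝ) ^ (1 / (d : ℝ) + δ) =
            (R : ℝ) ^ (1 / (d : ℝ) + δ / 2) * (R : ℝ) ^ (δ / 2) := by
          rw [← Real.rpow_add hR0]; congr 1; ring
        have h3 : (1 : ℝ) ≤ (R : ℝ) ^ (1 / (d : ℝ) + δ / 2) := Real.one_le_rpow hRR (by positivity)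
        rw [h2]
        nlinarith
      obtain ⟨R₁, hR₁⟩ := eventually_atTop.1 hev
      set R₂ : ℕ := max R₀ R₁ with hR₂
      refine ⟨max (8 * C) R₂, fun R hR x => ?_⟩
      have hRR : (1 : ℝ) ≤ R := by exact_mod_cast hR
      have hpw : (1 : ℝ) ≤ (R : ℝ) ^ (σ + ε) := Real.one_le_rpow hRR (by positivity)
      rcases Nat.lt_or_ge R R₂ with hlt | hge
      · calc ‖F R x‖ ≤ R := F_trivial R x
          _ ≤ R₂ := by exact_mod_cast hlt.le
          _ ≤ max (8 * C) R₂ := le_max_right _ _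
          _ = max (8 * C) R₂ * 1 := (mul_one _).symm
          _ ≤ _ := mul_le_mul_of_nonneg_left hpw (le_trans (Nat.cast_nonneg _) (le_max_right _ _))
      · have h1 := hR₁ R ((le_max_right _ _).trans hge)
        set B : ℕ := ⌈(R : ℝ) ^ (1 / (d : ℝ) + δ / 2)⌉₊ with hB
        obtain ⟨a, ha, r, hr, hle⟩ := hR₀ R ((le_max_left _ _).trans hge) B (Nat.le_ceil _) t x
        have h2 : ∀ i, (a i : ℝ) ≤ (R : ℝ) ^ (1 / (d : ℝ) + δ) := by
          intro i
          have h3 : (a i : ℝ) ≤ B := by exact_mod_cast (ha i).le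
          have h4 : (B : ℝ) < (R : ℝ) ^ (1 / (d : ℝ) + δ / 2) + 1 :=
            Nat.ceil_lt_add_one (by positivity)
          linarith
        calc ‖F R x‖ ≤ 8 * ‖F r (t + ∑ i, (a i : ℝ) * α i)‖ := hle
          _ ≤ 8 * (C * (R : ℝ) ^ (σ + ε)) :=
              mul_le_mul_of_nonneg_left (hC R hR r hr a h2) (by norm_num)
          _ = 8 * C * (R : ℝ) ^ (σ + ε) := by ring
          _ ≤ _ := mul_le_mul_of_nonneg_right (le_max_left _ _) (by positivity)
  · intro δ A hδ hA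
    obtain ⟨B₀, hB₀⟩ := almost α halg hii δ A hδ hA.le
    refine ⟨B₀, fun B hB t => ?_⟩
    refine le_trans ?_ (hB₀ B hB mu norm_mu t)
    refine Nat.cast_le.2 (Finset.card_le_card ?_)
    intro a ha
    rw [mem_filter] at ha ⊢
    obtain ⟨ha1, r, hr1, hr2, hr3⟩ := ha
    refine ⟨ha1, r, hr1, hr2, ?_⟩
    rw [← F_eq, Real.sqrt_inv, ← div_eq_mul_inv]
    exact hr3

end Pool.Agent.Results.MP_b6b996_nt.BoundsAtFieldElements
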