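import Pool.Agent.Results.MP_b6b996_nt.BoundsAtFieldElements
import Pool.Agent.X174.WinQ
import Pool.Agent.X174.WinVec

/-!
# The square root bound for the Möbius exponential sum at ALL elements of real number fields with coefficients in cubes

Let `F_R(x) = ∑_{n ≤ R} μ(n) e(nx)`. By `BoundsAtFieldElements` the sup norm of `F_R` is, up to the factor `8` and the
passage to the partial sums, attained at the numbers `t + w_1 α_1 + … + w_d α_d` with integers `0 ≤ w_j < R^(1/d + δ)`, where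
`α_1, …, α_d` are real algebraic numbers with `1, α_1, …, α_d` linearly independent over `ℚ`, and the square root bound holds
outside few of these numbers.

**Theorem.** Let `d ≥ 1`, `0 < δ ≤ d` and let `T` be a countable set of real numbers. For every sequence `v ≥ 1` of exponent of
convergence at most `τ` (for `v_i = (i + 1) ^ a` this is `1 / a`, for `v_i = b ^ i` it is `0`) and every `ρ < 1` there is ONE
set `E ⊂ ℝ^d` of Hausdorff dimension at most `(d - δ + τ) / (1 - ρ)` such that for every point `x` of `ℝ^d` outside `E`, ALL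
such `α_1, …, α_d`, all `t` in `T` and all `A` there is a constant `K` such that ALL integer vectors `w` in the cubes
`|w_j - x_j v_i| ≤ v_i ^ ρ`, `i ≥ 0`, satisfy
`|F_r(t + w_1 α_1 + … + w_d α_d)| ≤ K v_i ^ δ (√r + r / v_i ^ (d / 2))` for ALL `1 ≤ r ≤ v_i ^ A`; for `r ≤ v_i ^ d` this is
`≤ 2 K v_i ^ δ √r`.

The exceptional set `E` does not depend on the number field, the basis, `t` and `A`. The count of the exceptional vectors is
from `BoundsAtFieldElements`.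
-/

set_option autoImplicit false

open Finset

namespace Pool.Agent.Results.MP_b6b996_nt.CoefficientsInCubes

open BoundsAtFieldElements (F)

/-- the exponent of convergence of the sequence `v` is at most `τ` -/
def ExpLe (v : ℕ → ℝ) (τ : ℝ) : Prop := ∀ t : ℝ, τ < t → Summable (fun n : ℕ => (v n) ^ (-t))

/-- the bound fails at `w` on the level `B` -/
def BadAt {d : ℕ} (α : Fin d → ℝ) (t δ A B : ℝ) (w : Fin d → ℤ) : Prop :=
  ∃ r : ℕ, 1 ≤ r ∧ (r : ℝ) ≤ B ^ A ∧ B ^ δ * (Real.sqrt r + r / Real.sqrt (B ^ d)) < ‖F r (t + ∑ j, (w j : ℝ) * α j)‖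

/-- the sign change -/
def sg {d : ℕ} (s : Fin d → Bool) (a : Fin d → ℕ) : Fin d → ℤ := fun j => if s j then (a j : ℤ) else -(a j : ℤ)

lemma norm_F (r : ℕ) (x : ℝ) : ‖F r x‖ ≤ r := by
  unfold BoundsAtFieldElements.F
  refine (norm_sum_le _ _).trans ?_
  calc ∑ n ∈ Finset.Icc 1 r, ‖((ArithmeticFunction.moebius n : ℤ) : ℂ) * Complex.exp (2 * Real.pi * Complex.I * n * x)‖
      ≤ ∑ n ∈ Finset.Icc 1 r, (1 : ℝ) := by
        refine Finset.sum_le_sum fun n _ => ?_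
        rw [norm_mul]
        have h1 : ‖Complex.exp (2 * Real.pi * Complex.I * n * x)‖ = 1 := by
          rw [show (2 * Real.pi * Complex.I * n * x : ℂ) = ((2 * Real.pi * n * x : ℝ) : ℂ) * Complex.I by
            push_cast; ring]
          exact Complex.norm_exp_ofReal_mul_I _
        rw [h1, mul_one]
        have h2 : |ArithmeticFunction.moebius n| ≤ 1 := ArithmeticFunction.abs_moebius_le_one
        rw [Complex.norm_intCast]
        exact_mod_cast h2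
    _ = r := by simp

/-- the count of the exceptional integer vectors -/
lemma count {d : ℕ} (hd : 1 ≤ d) (α : Fin d → ℝ) (halg : ∀ i, IsAlgebraic ℚ (α i))
    (hind : LinearIndependent ℚ (Fin.cons 1 α : Fin (d + 1) → ℝ)) {δ A : ℝ} (hδ : 0 < δ) (hA : 0 < A) :
    ∃ B₀ : ℕ, ∀ B : ℕ, B₀ ≤ B → ∀ t : ℝ, {w : Fin d → ℤ | (∀ j, |w j| < B) ∧ BadAt α t δ A B w}.Finite ∧
      ({w : Fin d → ℤ | (∀ j, |w j| < B) ∧ BadAt α t δ A B w}.ncard : ℝ) ≤ 2 ^ d * (B : ℝ) ^ ((d : ℝ) - δ) := by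
  classical
  have hs : ∀ s : Fin d → Bool, ∃ B₀ : ℕ, ∀ B : ℕ, B₀ ≤ B → ∀ t : ℝ,
      (((Fintype.piFinset fun _ : Fin d => range B).filter fun a =>
        ∃ r : ℕ, 1 ≤ r ∧ (r : ℝ) ≤ (B : ℝ) ^ A ∧
          (B : ℝ) ^ δ * (Real.sqrt r + r / Real.sqrt ((B : ℝ) ^ d)) <
            ‖F r (t + ∑ i, (a i : ℝ) * (if s i then α i else -α i))‖).card : ℝ) ≤ (B : ℝ) ^ ((d : ℝ) - δ) := by
    intro s
    have halg' : ∀ i, IsAlgebraic ℚ (if s i then α i else -α i) := by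
      intro i
      split_ifs
      · exact halg i
      · exact (halg i).neg
    have hind' : LinearIndependent ℚ (Fin.cons 1 (fun i => if s i then α i else -α i) : Fin (d + 1) → ℝ) := by
      have h1 := hind.units_smul (Fin.cons 1 (fun i => if s i then (1 : ℚˣ) else -1) : Fin (d + 1) → ℚˣ)
      convert h1 using 1
      funext i
      refine Fin.cases ?_ (fun j => ?_) i
      · simp
      · simp only [Fin.cons_succ, Pi.smul_apply']
        split_ifs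
        · simp
        · simp [Units.smul_def]
    exact (BoundsAtFieldElements.result hd _ halg' hind').2.2 δ A hδ hA
  choose B₀ hB₀ using hs
  refine ⟨∑ s, B₀ s, fun B hB t => ?_⟩
  have hBs : ∀ s, B₀ s ≤ B := fun s => (Finset.single_le_sum (fun i _ => Nat.zero_le _) (Finset.mem_univ s)).trans hB
  set U : Finset (Fin d → ℤ) := (Finset.univ : Finset (Fin d → Bool)).biUnion fun s =>
    ((Fintype.piFinset fun _ : Fin d => range B).filter fun a =>
        ∃ r : ℕ, 1 ≤ r ∧ (r : ℝ) ≤ (B : ℝ) ^ A ∧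
          (B : ℝ) ^ δ * (Real.sqrt r + r / Real.sqrt ((B : ℝ) ^ d)) <
            ‖F r (t + ∑ i, (a i : ℝ) * (if s i then α i else -α i))‖).image (sg s) with hU
  have hsub : {w : Fin d → ℤ | (∀ j, |w j| < B) ∧ BadAt α t δ A B w} ⊆ (U : Set (Fin d → ℤ)) := by
    rintro w ⟨hw, r, hr1, hr2, hr3⟩
    rw [hU, Finset.coe_biUnion]
    refine Set.mem_iUnion₂.2 ⟨fun j => decide (0 ≤ w j), Finset.mem_coe.2 (Finset.mem_univ _), ?_⟩
    rw [Finset.coe_image]
    refine ⟨fun j => (w j).natAbs, ?_, ?_⟩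
    · rw [Finset.mem_coe, Finset.mem_filter, Fintype.mem_piFinset]
      refine ⟨fun j => ?_, r, hr1, hr2, ?_⟩
      · rw [Finset.mem_range]
        have := hw j
        rw [Int.abs_eq_natAbs] at this
        exact_mod_cast this
      · refine lt_of_lt_of_eq hr3 ?_
        congr 2
        congr 1
        refine Finset.sum_congr rfl fun j _ => ?_
        by_cases h0 : 0 ≤ w j
        · have e : ((w j).natAbs : ℝ) = w j := by
            rw [Nat.cast_natAbs, abs_of_nonneg h0]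
          simp only [h0, decide_true, if_true, e]
        · have e : ((w j).natAbs : ℝ) = -(w j : ℝ) := by
            rw [Nat.cast_natAbs, abs_of_neg (not_le.1 h0)]
            push_cast
            ring
          simp only [h0, decide_false, Bool.false_eq_true, if_false, e]
          ring
    · funext j
      unfold sg
      by_cases h0 : 0 ≤ w j
      · simp only [h0, decide_true, if_true]
        omega
      · simp only [h0, decide_false, Bool.false_eq_true, if_false]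
        omega
  refine ⟨U.finite_toSet.subset hsub, ?_⟩
  have h1 : ({w : Fin d → ℤ | (∀ j, |w j| < B) ∧ BadAt α t δ A B w}.ncard : ℝ) ≤ (U.card : ℝ) := by
    have := Set.ncard_le_ncard hsub U.finite_toSet
    rw [Set.ncard_coe_finset] at this
    exact_mod_cast this
  have h2 : (U.card : ℝ) ≤ ∑ s : Fin d → Bool, (B : ℝ) ^ ((d : ℝ) - δ) := by
    have h4 : U.card ≤ ∑ s : Fin d → Bool, ((Fintype.piFinset fun _ : Fin d => range B).filter fun a =>
        ∃ r : ℕ, 1 ≤ r ∧ (r : ℝ) ≤ (B : ℝ) ^ A ∧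
          (B : ℝ) ^ δ * (Real.sqrt r + r / Real.sqrt ((B : ℝ) ^ d)) <
            ‖F r (t + ∑ i, (a i : ℝ) * (if s i then α i else -α i))‖).card :=
      Finset.card_biUnion_le.trans (Finset.sum_le_sum fun s _ => Finset.card_image_le)
    refine le_trans (by exact_mod_cast h4 : (U.card : ℝ) ≤ ((∑ s : Fin d → Bool,
      ((Fintype.piFinset fun _ : Fin d => range B).filter fun a =>
        ∃ r : ℕ, 1 ≤ r ∧ (r : ℝ) ≤ (B : ℝ) ^ A ∧
          (B : ℝ) ^ δ * (Real.sqrt r + r / Real.sqrt ((B : ℝ) ^ d)) <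
            ‖F r (t + ∑ i, (a i : ℝ) * (if s i then α i else -α i))‖).card : ℕ) : ℝ)) ?_
    push_cast
    exact Finset.sum_le_sum fun s _ => hB₀ s B (hBs s) t
  have h3 : ∑ s : Fin d → Bool, (B : ℝ) ^ ((d : ℝ) - δ) = 2 ^ d * (B : ℝ) ^ ((d : ℝ) - δ) := by
    rw [Finset.sum_const, Finset.card_univ, Fintype.card_fun, Fintype.card_bool, Fintype.card_fin, nsmul_eq_mul]
    push_cast
    ring
  linarith

lemma one {d : ℕ} (hd : 1 ≤ d) (α : Fin d → ℝ) (halg : ∀ i, IsAlgebraic ℚ (α i))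
    (hind : LinearIndependent ℚ (Fin.cons 1 α : Fin (d + 1) → ℝ)) (t : ℝ) {δ A : ℝ} (hδ : 0 < δ) (hδd : δ ≤ d) (hA : 0 < A)
    {v : ℕ → ℝ} {τ ρ : ℝ} (hv : ∀ i, 1 ≤ v i) (hτ : 0 ≤ τ) (hE : ExpLe v τ) (hρ : ρ < 1) :
    ∃ E : Set (Fin d → ℝ), dimH E ≤ ENNReal.ofReal (((d : ℝ) - δ + τ) / (1 - ρ)) ∧ ∀ x : Fin d → ℝ, x ∉ E →
      ∃ K : ℝ, ∀ i : ℕ, ∀ w : Fin d → ℤ, (∀ j, |(w j : ℝ) - x j * v i| ≤ (v i) ^ ρ) → ∀ r : ℕ, 1 ≤ r →
        (r : ℝ) ≤ (v i) ^ A → ‖F r (t + ∑ j, (w j : ℝ) * α j)‖ ≤ K * (v i) ^ δ * (Real.sqrt r + r / Real.sqrt ((v i) ^ d)) := by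
  obtain ⟨B₀, hB₀⟩ := count hd α halg hind hδ hA
  set lev : ℝ → ℕ := fun T => B₀ + ⌈T⌉₊ + 1 with hlev
  have hlev1 : ∀ T : ℝ, T < (lev T : ℝ) := by
    intro T
    have h1 := Nat.le_ceil T
    rw [hlev]
    push_cast
    have h2 : (0 : ℝ) ≤ B₀ := Nat.cast_nonneg _
    linarith
  have hlev2 : ∀ T : ℝ, 1 ≤ T → (lev T : ℝ) ≤ (B₀ + 3) * T := by
    intro T hT
    have h1 := Nat.ceil_lt_add_one (show (0 : ℝ) ≤ T by linarith)
    rw [hlev]
    push_cast
    have h2 : (0 : ℝ) ≤ B₀ := Nat.cast_nonneg _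
    nlinarith
  obtain ⟨E, h1, h2⟩ := Pool.Agent.X174.winFamE (κ := Fin d) (Q := Fin d → ℤ) (fun w j => (w j : ℝ))
    (fun T => {w : Fin d → ℤ | (∀ j, |w j| < lev T) ∧ BadAt α t δ A (lev T) w}) (s := (d : ℝ) - δ) (by linarith) (by
      intro ε hε
      refine ⟨2 ^ d * ((B₀ : ℝ) + 3) ^ ((d : ℝ) - δ), fun T hT => ?_⟩
      have hBlev : B₀ ≤ lev T := by
        simp only [hlev]
        omega
      obtain ⟨h3, h4⟩ := hB₀ (lev T) hBlev t
      refine ⟨h3, h4.trans ?_⟩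
      have hB3 : (0 : ℝ) ≤ (B₀ : ℝ) + 3 := by positivity
      calc 2 ^ d * ((lev T : ℕ) : ℝ) ^ ((d : ℝ) - δ) ≤ 2 ^ d * ((B₀ + 3) * T) ^ ((d : ℝ) - δ) :=
            mul_le_mul_of_nonneg_left (Real.rpow_le_rpow (Nat.cast_nonneg _) (hlev2 T hT) (by linarith)) (by positivity)
        _ = 2 ^ d * ((B₀ : ℝ) + 3) ^ ((d : ℝ) - δ) * T ^ ((d : ℝ) - δ) := by
            rw [Real.mul_rpow hB3 (by linarith)]
            ring
        _ ≤ 2 ^ d * ((B₀ : ℝ) + 3) ^ ((d : ℝ) - δ) * T ^ ((d : ℝ) - δ + ε) :=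
            mul_le_mul_of_nonneg_left (Real.rpow_le_rpow_of_exponent_le hT (by linarith)) (by positivity)) hv hτ hE hρ
  refine ⟨E, h1, fun x hx => ?_⟩
  obtain ⟨R, hR, hRc⟩ := Pool.Agent.X174.le_of_cube x
  obtain ⟨i₀, hi₀⟩ := h2 x hx R hR
  have hR1 : (1 : ℝ) ≤ R := by exact_mod_cast hR
  refine ⟨((B₀ + 3) * R) ^ δ + ∑ i ∈ range i₀, (v i) ^ A, fun i w hw r hr1 hr2 => ?_⟩
  have hvi := hv i
  have hvi0 : 0 < v i := by linarith
  have hS : ∀ n : ℕ, 0 ≤ ∑ i ∈ range n, (v i) ^ A := fun n =>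
    Finset.sum_nonneg fun j _ => Real.rpow_nonneg (by linarith [hv j]) _
  have hr0 : (1 : ℝ) ≤ r := by exact_mod_cast hr1
  have hsq : 1 ≤ Real.sqrt r := Real.one_le_sqrt.2 hr0
  have hsq2 : 0 ≤ (r : ℝ) / Real.sqrt ((v i) ^ d) := by positivity
  have hvδ : 1 ≤ (v i) ^ δ := Real.one_le_rpow hvi hδ.le
  have hK1 : (0 : ℝ) ≤ ((B₀ + 3) * R : ℝ) ^ δ := by positivity
  rcases Nat.lt_or_ge i i₀ with hi | hi
  · have h5 : (v i) ^ A ≤ ∑ i ∈ range i₀, (v i) ^ A :=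
      Finset.single_le_sum (f := fun j => (v j) ^ A) (fun j _ => Real.rpow_nonneg (by linarith [hv j]) _)
        (Finset.mem_range.2 hi)
    set K := ((B₀ + 3) * R : ℝ) ^ δ + ∑ i ∈ range i₀, (v i) ^ A with hK
    have hK2 : (v i) ^ A ≤ K := by linarith
    have hK0 : 0 ≤ K := (Real.rpow_nonneg hvi0.le _).trans hK2
    calc ‖F r (t + ∑ j, (w j : ℝ) * α j)‖ ≤ r := norm_F _ _
      _ ≤ K := hr2.trans hK2
      _ = K * 1 * 1 := by ring
      _ ≤ K * (v i) ^ δ * (Real.sqrt r + r / Real.sqrt ((v i) ^ d)) := by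
          apply mul_le_mul (mul_le_mul_of_nonneg_left hvδ hK0) (by linarith) zero_le_one
          positivity
  · have h5 := hi₀ i hi w hw
    have h6 := hRc (fun j => (w j : ℝ)) (v i) ρ hvi hρ hw
    set B : ℕ := lev (R * v i) with hB
    have hB1 : (R : ℝ) * v i < B := hlev1 _
    have hB2 : (B : ℝ) ≤ ((B₀ : ℝ) + 3) * R * v i := by
      have := hlev2 (R * v i) (by nlinarith)
      rw [← mul_assoc] at this
      exact this
    have hvB : v i ≤ B := by nlinarith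
    have hB0 : (0 : ℝ) < B := by linarith
    have h7 : ∀ j, |w j| < (B : ℤ) := by
      intro j
      have h8 := (h6 j).trans_lt hB1
      exact_mod_cast h8
    have h9 : ¬ BadAt α t δ A B w := fun hbad => h5 ⟨h7, hbad⟩
    unfold BadAt at h9
    push Not at h9
    have h10 := h9 r hr1 (hr2.trans (Real.rpow_le_rpow hvi0.le hvB hA.le))
    have h11 : (B : ℝ) ^ δ ≤ ((B₀ + 3) * R : ℝ) ^ δ * (v i) ^ δ := by
      rw [← Real.mul_rpow (by positivity) hvi0.le]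
      exact Real.rpow_le_rpow hB0.le hB2 hδ.le
    have h12 : (r : ℝ) / Real.sqrt ((B : ℝ) ^ d) ≤ r / Real.sqrt ((v i) ^ d) := by
      apply div_le_div_of_nonneg_left (by linarith) (Real.sqrt_pos.2 (by positivity))
      exact Real.sqrt_le_sqrt (pow_le_pow_left₀ hvi0.le hvB d)
    calc ‖F r (t + ∑ j, (w j : ℝ) * α j)‖ ≤ (B : ℝ) ^ δ * (Real.sqrt r + r / Real.sqrt ((B : ℝ) ^ d)) := h10
      _ ≤ (((B₀ + 3) * R : ℝ) ^ δ * (v i) ^ δ) * (Real.sqrt r + r / Real.sqrt ((v i) ^ d)) := by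
          apply mul_le_mul h11 (by linarith) (by positivity) (by positivity)
      _ ≤ (((B₀ + 3) * R : ℝ) ^ δ + ∑ i ∈ range i₀, (v i) ^ A) * (v i) ^ δ * (Real.sqrt r + r / Real.sqrt ((v i) ^ d)) := by
          apply mul_le_mul_of_nonneg_right _ (by positivity)
          apply mul_le_mul_of_nonneg_right _ (by positivity)
          linarith [hS i₀]

/-- **The square root bound at all field elements with coefficients in cubes.** Let `d ≥ 1`, `0 < δ ≤ d`, `T` a countable set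
of real numbers, `v ≥ 1` a sequence of exponent of convergence at most `τ ≥ 0` and `ρ < 1`. There is a set `E ⊂ ℝ^d` of Hausdorff
dimension at most `(d - δ + τ) / (1 - ρ)` such that for every `x` outside `E`, all real algebraic numbers `α_1, …, α_d` with
`1, α_1, …, α_d` linearly independent over `ℚ`, all `t` in `T` and all `A > 0` there is `K` such that for all `i` and all integer
vectors `w` with `|w_j - x_j v_i| ≤ v_i ^ ρ` for all `j`:
(a) `|F_r(t + w_1 α_1 + … + w_d α_d)| ≤ K v_i ^ δ (√r + r / √(v_i ^ d))` for all `1 ≤ r ≤ v_i ^ A`;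
(b) if `A ≥ d`: `|F_r(t + w_1 α_1 + … + w_d α_d)| ≤ 2 K v_i ^ δ √r` for all `1 ≤ r ≤ v_i ^ d`.
The sequences `v_i = (i + 1) ^ a` and `v_i = b ^ i` have exponent of convergence at most `1 / a` and `0`. -/
theorem result :
    (∀ d : ℕ, 1 ≤ d → ∀ δ : ℝ, 0 < δ → δ ≤ d → ∀ T : Set ℝ, T.Countable → ∀ (v : ℕ → ℝ) (τ ρ : ℝ),
      (∀ i, 1 ≤ v i) → 0 ≤ τ → ExpLe v τ → ρ < 1 →
      ∃ E : Set (Fin d → ℝ), dimH E ≤ ENNReal.ofReal (((d : ℝ) - δ + τ) / (1 - ρ)) ∧ ∀ x : Fin d → ℝ, x ∉ E →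
        ∀ α : Fin d → ℝ, (∀ i, IsAlgebraic ℚ (α i)) → LinearIndependent ℚ (Fin.cons 1 α : Fin (d + 1) → ℝ) →
        ∀ t ∈ T, ∀ A : ℝ, 0 < A → ∃ K : ℝ,
          ∀ i : ℕ, ∀ w : Fin d → ℤ, (∀ j, |(w j : ℝ) - x j * v i| ≤ (v i) ^ ρ) →
            (∀ r : ℕ, 1 ≤ r → (r : ℝ) ≤ (v i) ^ A →
              ‖F r (t + ∑ j, (w j : ℝ) * α j)‖ ≤ K * (v i) ^ δ * (Real.sqrt r + r / Real.sqrt ((v i) ^ d))) ∧
            ((d : ℝ) ≤ A → ∀ r : ℕ, 1 ≤ r → (r : ℝ) ≤ (v i) ^ d →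
              ‖F r (t + ∑ j, (w j : ℝ) * α j)‖ ≤ 2 * K * (v i) ^ δ * Real.sqrt r)) ∧
    (∀ a : ℝ, 0 < a → ExpLe (fun n : ℕ => ((n : ℝ) + 1) ^ a) (1 / a)) ∧
    (∀ b : ℝ, 1 < b → ExpLe (fun n : ℕ => b ^ n) 0) := by
  refine ⟨fun d hd δ hδ hδd T hT v τ ρ hv hτ hE hρ => ?_, fun κ hκ => Pool.Agent.Y854.GM.expLe_pow κ hκ,
    fun b hb => Pool.Agent.Y854.GM.expLe_geom b hb⟩
  set Al : Set (Fin d → ℝ) := {α | (∀ i, IsAlgebraic ℚ (α i)) ∧ LinearIndependent ℚ (Fin.cons 1 α : Fin (d + 1) → ℝ)} with hAl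
  have hAlc : Al.Countable := by
    have h1 : (Set.pi Set.univ fun _ : Fin d => {x : ℝ | IsAlgebraic ℚ x}).Countable :=
      Set.countable_univ_pi fun _ => Algebraic.countable ℚ ℝ
    refine h1.mono ?_
    rintro α ⟨h2, -⟩ i _
    exact h2 i
  set P : Set ((Fin d → ℝ) × ℝ × ℕ) := Al ×ˢ (T ×ˢ (Set.univ : Set ℕ)) with hP
  have hPc : P.Countable := hAlc.prod (hT.prod Set.countable_univ)
  have key : ∀ p ∈ P, ∃ E : Set (Fin d → ℝ), dimH E ≤ ENNReal.ofReal (((d : ℝ) - δ + τ) / (1 - ρ)) ∧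
      ∀ x : Fin d → ℝ, x ∉ E → ∃ K : ℝ, ∀ i : ℕ, ∀ w : Fin d → ℤ,
        (∀ j, |(w j : ℝ) - x j * v i| ≤ (v i) ^ ρ) → ∀ r : ℕ, 1 ≤ r →
        (r : ℝ) ≤ (v i) ^ ((p.2.2 : ℝ) + 1) →
        ‖F r (p.2.1 + ∑ j, (w j : ℝ) * p.1 j)‖ ≤ K * (v i) ^ δ * (Real.sqrt r + r / Real.sqrt ((v i) ^ d)) := by
    rintro ⟨α, t, n⟩ ⟨⟨h1, h2⟩, -⟩
    exact one hd α h1 h2 t hδ hδd (by positivity) hv hτ hE hρ
  choose! E hE1 hE2 using key
  refine ⟨⋃ p ∈ P, E p, ?_, fun x hx α h1 h2 t ht A hA => ?_⟩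
  · rw [dimH_bUnion hPc]
    exact iSup₂_le hE1
  · obtain ⟨n, hn⟩ := exists_nat_ge A
    have hp : ((α, t, n) : (Fin d → ℝ) × ℝ × ℕ) ∈ P := ⟨⟨h1, h2⟩, ht, Set.mem_univ _⟩
    have hxp : x ∉ E (α, t, n) := fun h => hx (Set.mem_biUnion hp h)
    obtain ⟨K, hK⟩ := hE2 _ hp x hxp
    refine ⟨|K|, fun i w hw => ?_⟩
    have hvi := hv i
    have hvi0 : 0 < v i := by linarith
    have hmain : ∀ r : ℕ, 1 ≤ r → (r : ℝ) ≤ (v i) ^ A →
        ‖F r (t + ∑ j, (w j : ℝ) * α j)‖ ≤ |K| * (v i) ^ δ * (Real.sqrt r + r / Real.sqrt ((v i) ^ d)) := by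
      intro r hr1 hr2
      refine (hK i w hw r hr1 (hr2.trans (Real.rpow_le_rpow_of_exponent_le hvi ?_))).trans ?_
      · show A ≤ (n : ℝ) + 1
        linarith
      · apply mul_le_mul_of_nonneg_right _ (by positivity)
        exact mul_le_mul_of_nonneg_right (le_abs_self K) (by positivity)
    refine ⟨hmain, fun hdA r hr1 hr2 => ?_⟩
    have h3 : (v i) ^ d ≤ (v i) ^ A := by
      rw [← Real.rpow_natCast]
      exact Real.rpow_le_rpow_of_exponent_le hvi hdA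
    refine (hmain r hr1 (hr2.trans h3)).trans ?_
    have hs0 : 0 < Real.sqrt ((v i) ^ d) := Real.sqrt_pos.2 (by positivity)
    have h4 : (r : ℝ) / Real.sqrt ((v i) ^ d) ≤ Real.sqrt r := by
      rw [div_le_iff₀ hs0]
      calc (r : ℝ) = Real.sqrt r * Real.sqrt r := (Real.mul_self_sqrt (Nat.cast_nonneg _)).symm
        _ ≤ Real.sqrt r * Real.sqrt ((v i) ^ d) :=
            mul_le_mul_of_nonneg_left (Real.sqrt_le_sqrt hr2) (Real.sqrt_nonneg _)
    calc |K| * (v i) ^ δ * (Real.sqrt r + r / Real.sqrt ((v i) ^ d)) ≤ |K| * (v i) ^ δ * (Real.sqrt r + Real.sqrt r) :=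
          mul_le_mul_of_nonneg_left (by linarith) (by positivity)
      _ = 2 * |K| * (v i) ^ δ * Real.sqrt r := by ring

end Pool.Agent.Results.MP_b6b996_nt.CoefficientsInCubes
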