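import Mathlib
import Pool.Agent.X159.WM.Expo

/-!
The growth exponent of the sup norm of `∑ μ(n) e(nx)` is that of many other exponential sums.
-/

set_option autoImplicit false

namespace Pool.Agent.Results.MP_b6b996_nt.SameExponent

open Pool.Agent.X159.WM

theorem result (θ : ℝ) (hθ : 1 / 2 ≤ θ) :
    (∀ g g' : ArithmeticFunction ℝ, g * g' = 1 → Half g → Half g' →
      (SupBound mu θ ↔ SupBound (g * mu) θ)) ∧
    (∀ f : ArithmeticFunction ℝ, f.IsMultiplicative → (∀ p : ℕ, p.Prime → f p = -1) →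
      (∀ p k : ℕ, p.Prime → |f (p ^ k)| ≤ 1) → SupBound mu θ → SupBound f θ) ∧
    (SupBound mu θ ↔ SupBound lam θ) ∧
    (∀ P : Set ℕ, (∀ p ∈ P, p.Prime) →
      (∀ σ : ℝ, 1 / 2 < σ → Summable fun p : P => ((p : ℕ) : ℝ) ^ (-σ)) →
      (SupBound mu θ ↔ SupBound (muP P) θ)) :=
  expo_main θ hθ

end Pool.Agent.Results.MP_b6b996_nt.SameExponent
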